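import Mathlib

/-!
# Selective (sequential) pseudocompactness is not preserved by `G`-equivalence
-/

namespace Pool.Agent.Results.MP_c4a8f9_gt.NotInvariant

open Set Filter Topology

/-- The group `C_p(X, G)` of continuous maps `X → G`, as a subgroup of `G ^ X` (with the topology
of pointwise convergence). -/
def Cp (X G : Type) [TopologicalSpace X] [TopologicalSpace G] [AddGroup G]
    [IsTopologicalAddGroup G] : AddSubgroup (X → G) where
  carrier := {f | Continuous f}
  add_mem' := fun hf hg => hf.add hg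
  zero_mem' := continuous_const
  neg_mem' := fun hf => hf.neg

/-- `G`-equivalence: `C_p(X, G)` and `C_p(Y, G)` are topologically isomorphic. -/
def GEquivalent (X Y G : Type) [TopologicalSpace X] [TopologicalSpace Y] [TopologicalSpace G]
    [AddGroup G] [IsTopologicalAddGroup G] : Prop :=
  Nonempty (Cp X G ≃ₜ+ Cp Y G)

/-- Selective sequential pseudocompactness. -/
def SelSeq (X : Type) [TopologicalSpace X] : Prop :=
  ∀ U : ℕ → Set X, (∀ n, IsOpen (U n) ∧ (U n).Nonempty) →
    ∃ x : ℕ → X, (∀ n, x n ∈ U n) ∧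
      ∃ (a : X) (φ : ℕ → ℕ), StrictMono φ ∧ Tendsto (fun n => x (φ n)) atTop (𝓝 a)

/-- Selective pseudocompactness. -/
def SelPseudo (X : Type) [TopologicalSpace X] : Prop :=
  ∀ U : ℕ → Set X, (∀ n, IsOpen (U n) ∧ (U n).Nonempty) →
    (∀ i j, i ≠ j → Disjoint (U i) (U j)) →
    ∃ x : ℕ → X, (∀ n, x n ∈ U n) ∧ ¬ IsClosed (range x)

section basic

variable {X Y G : Type} [TopologicalSpace X] [TopologicalSpace Y]

lemma dense_Cp [CompactSpace X] [T2Space X] : Dense (Cp X ℝ : Set (X → ℝ)) := by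
  intro y
  rw [mem_closure_iff_nhds]
  intro U hU
  rw [nhds_pi, Filter.mem_pi] at hU
  obtain ⟨I, hI, t, ht, hsub⟩ := hU
  have : Finite I := hI
  have hcl : IsClosed I := hI.isClosed
  obtain ⟨g, hg⟩ := ContinuousMap.exists_restrict_eq (Y := ℝ) hcl
    ⟨fun i : I => y i, continuous_of_discreteTopology⟩
  refine ⟨g, hsub ?_, g.continuous⟩
  intro i hi
  have h1 : g i = y i := by
    have := congrArg (fun h : C(I, ℝ) => h ⟨i, hi⟩) hg
    simpa using this
  rw [h1]
  exact mem_of_mem_nhds (ht i)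

/-- A convenient reformulation. -/
lemma selSeq_of (h : ∀ U : ℕ → Set X, (∀ n, IsOpen (U n) ∧ (U n).Nonempty) →
    ∃ φ : ℕ → ℕ, StrictMono φ ∧ ∃ x : ℕ → X, (∀ n, x n ∈ U (φ n)) ∧
      ∃ a : X, Tendsto x atTop (𝓝 a)) : SelSeq X := by
  intro U hU
  obtain ⟨φ, hφ, x, hx, a, ha⟩ := h U hU
  choose y hy using fun n => (hU n).2
  refine ⟨Function.extend φ x y, ?_, a, φ, hφ, ?_⟩
  · intro n
    by_cases hn : ∃ m, φ m = n
    · obtain ⟨m, rfl⟩ := hn
      rw [hφ.injective.extend_apply]
      exact hx m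
    · rw [Function.extend_apply' _ _ _ hn]
      exact hy n
  · simpa only [hφ.injective.extend_apply] using ha

lemma SelSeq.sum (hX : SelSeq X) (hY : SelSeq Y) : SelSeq (X ⊕ Y) := by
  apply selSeq_of
  intro U hU
  by_cases hP : ∃ᶠ n in atTop, (Sum.inl ⁻¹' U n).Nonempty
  · obtain ⟨φ, hφ, hφP⟩ := extraction_of_frequently_atTop hP
    obtain ⟨x, hx, a, ψ, hψ, ha⟩ := hX (fun n => Sum.inl ⁻¹' U (φ n))
      (fun n => ⟨(hU _).1.preimage continuous_inl, hφP n⟩)
    exact ⟨φ ∘ ψ, hφ.comp hψ, fun n => Sum.inl (x (ψ n)), fun n => hx (ψ n), Sum.inl a,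
      (continuous_inl.tendsto a).comp ha⟩
  · have hP' : ∃ᶠ n in atTop, (Sum.inr ⁻¹' U n).Nonempty := by
      rw [not_frequently] at hP
      apply Eventually.frequently
      filter_upwards [hP] with n hn
      obtain ⟨w, hw⟩ := (hU n).2
      rcases w with w | w
      · exact absurd ⟨w, hw⟩ hn
      · exact ⟨w, hw⟩
    obtain ⟨φ, hφ, hφP⟩ := extraction_of_frequently_atTop hP'
    obtain ⟨x, hx, a, ψ, hψ, ha⟩ := hY (fun n => Sum.inr ⁻¹' U (φ n))
      (fun n => ⟨(hU _).1.preimage continuous_inr, hφP n⟩)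
    exact ⟨φ ∘ ψ, hφ.comp hψ, fun n => Sum.inr (x (ψ n)), fun n => hx (ψ n), Sum.inr a,
      (continuous_inr.tendsto a).comp ha⟩

lemma selSeq_onePoint : SelSeq (OnePoint ℕ) := by
  intro U hU
  choose x hx using fun n => (hU n).2
  refine ⟨x, hx, ?_⟩
  by_cases h : ∃ v, ∃ᶠ n in atTop, x n = v
  · obtain ⟨v, hv⟩ := h
    obtain ⟨φ, hφ, hφv⟩ := extraction_of_frequently_atTop hv
    refine ⟨v, φ, hφ, ?_⟩
    simp only [hφv]
    exact tendsto_const_nhds
  · push Not at h
    refine ⟨OnePoint.infty, id, strictMono_id, ?_⟩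
    rw [OnePoint.hasBasis_nhds_infty.tendsto_right_iff]
    rintro s ⟨-, hs⟩
    have hfin : s.Finite := hs.finite_of_discrete
    have h1 : ∀ᶠ n in atTop, ∀ v ∈ s, x n ≠ (v : OnePoint ℕ) := by
      rw [eventually_all_finite hfin]
      intro v _
      exact h v
    filter_upwards [h1] with n hn
    rcases hxn : x n with _ | v
    · right; exact hxn
    · left
      refine ⟨v, ?_, ?_⟩
      · intro hv
        exact hn v hv hxn
      · exact hxn.symm

end basic

section cube

/-- The cube `{0,1}^𝔠`. -/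
abbrev K : Type := Set ℕ → Bool

open Classical in
/-- A sequence in the cube without convergent subsequences. -/
noncomputable def kk (n : ℕ) : K := fun A => decide (Odd ((Finset.range n).filter (· ∈ A)).card)

lemma kk_not_tendsto (φ : ℕ → ℕ) (hφ : StrictMono φ) (a : K) :
    ¬ Tendsto (fun n => kk (φ n)) atTop (𝓝 a) := by
  classical
  intro h
  have h1 : Tendsto (fun n => kk (φ n) (range φ)) atTop (𝓝 (a (range φ))) :=
    (tendsto_pi_nhds.1 h) (range φ)
  have h2 : ∀ i, kk (φ i) (range φ) = decide (Odd i) := by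
    intro i
    have h3 : (Finset.range (φ i)).filter (· ∈ range φ) = (Finset.range i).image φ := by
      ext m
      simp only [Finset.mem_filter, Finset.mem_range, mem_range, Finset.mem_image]
      constructor
      · rintro ⟨h4, j, rfl⟩
        exact ⟨j, hφ.lt_iff_lt.1 h4, rfl⟩
      · rintro ⟨j, hj, rfl⟩
        exact ⟨hφ hj, j, rfl⟩
    have h4 : ((Finset.range i).image φ).card = i := by
      rw [Finset.card_image_of_injective _ hφ.injective, Finset.card_range]
    have h5 : ((Finset.range (φ i)).filter (· ∈ range φ)).card = i := by rw [h3, h4]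
    unfold kk
    rw [decide_eq_decide]
    convert (Iff.rfl : Odd i ↔ Odd i) using 2
  simp only [h2] at h1
  rw [nhds_discrete, tendsto_pure] at h1
  obtain ⟨N, hN⟩ := eventually_atTop.1 h1
  have h5 := hN (2 * N) (by omega)
  have h6 := hN (2 * N + 1) (by omega)
  rw [← h6] at h5
  rw [decide_eq_decide] at h5
  have h7 : Odd (2 * N + 1) := ⟨N, rfl⟩
  have h8 : ¬ Odd (2 * N) := by
    rw [Nat.not_odd_iff_even]
    exact ⟨N, by ring⟩
  exact h8 (h5.2 h7)

lemma selSeq_K : SelSeq K := by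
  classical
  intro U hU
  have hex : ∀ n, ∃ x : K, x ∈ U n ∧ {A | x A = true}.Finite := by
    intro n
    obtain ⟨y, hy⟩ := (hU n).2
    obtain ⟨I, u, hu, hsub⟩ := isOpen_pi_iff.1 (hU n).1 y hy
    refine ⟨fun A => if A ∈ I then y A else false, hsub ?_, ?_⟩
    · intro A hA
      have hA' : A ∈ I := hA
      simp only [hA', if_true]
      exact (hu A hA').2
    · refine (I.finite_toSet).subset ?_
      intro A hA
      by_contra hAI
      have hAI' : A ∉ I := hAI
      simp [hAI'] at hA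
  choose x hx hfin using hex
  refine ⟨x, hx, ?_⟩
  set D : Set (Set ℕ) := ⋃ n, {A | x n A = true} with hD
  have hDc : D.Countable := countable_iUnion fun n => (hfin n).countable
  have : Countable D := hDc
  set e : (D → Bool) → K := fun z A => if h : A ∈ D then z ⟨A, h⟩ else false with he
  have hec : Continuous e := by
    refine continuous_pi fun A => ?_
    by_cases h : A ∈ D
    · simp only [he, h, dif_pos]
      exact continuous_apply _
    · simp only [he, h, dif_neg, not_false_iff]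
      exact continuous_const
  have hxe : ∀ n, e (fun A => x n A) = x n := by
    intro n
    funext A
    by_cases h : A ∈ D
    · simp [he, h]
    · simp only [he, h, dif_neg, not_false_iff]
      have : ¬ (x n A = true) := fun h' => h (mem_iUnion.2 ⟨n, h'⟩)
      simpa using this
  obtain ⟨z, φ, hφ, hz⟩ := CompactSpace.tendsto_subseq (fun n => (fun A : D => x n A))
  refine ⟨e z, φ, hφ, ?_⟩
  have h1 := (hec.tendsto z).comp hz
  refine h1.congr fun n => ?_
  exact hxe (φ n)

end cube

section spaceX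

/-- The closed subspace `K × {∞} ∪ {(kk n, n)}` of `K × (ℕ ∪ {∞})`. -/
abbrev X₀ : Type := {p : K × OnePoint ℕ // ∀ n : ℕ, p.2 = (n : OnePoint ℕ) → p.1 = kk n}

lemma isClopen_nat (n : ℕ) : IsClopen {s : OnePoint ℕ | s = (n : OnePoint ℕ)} := by
  have h1 : {s : OnePoint ℕ | s = (n : OnePoint ℕ)} = {(n : OnePoint ℕ)} := rfl
  rw [h1]
  refine ⟨isClosed_singleton, ?_⟩
  have h2 := (OnePoint.isOpenEmbedding_coe (X := ℕ)).isOpenMap {n} (isOpen_discrete _)
  rwa [image_singleton] at h2

instance : CompactSpace X₀ := by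
  have hcl : IsClosed {p : K × OnePoint ℕ | ∀ n : ℕ, p.2 = (n : OnePoint ℕ) → p.1 = kk n} := ?_
  · exact isCompact_iff_compactSpace.1 hcl.isCompact
  rw [ofPred_forall]
  refine isClosed_iInter fun n => ?_
  have h1 : {p : K × OnePoint ℕ | p.2 = (n : OnePoint ℕ) → p.1 = kk n} =
      {p | p.2 = (n : OnePoint ℕ)}ᶜ ∪ {p | p.1 = kk n} := by
    ext p
    simp [imp_iff_not_or]
  rw [h1]
  refine IsClosed.union ?_ ?_
  · exact ((isClopen_nat n).2.preimage continuous_snd).isClosed_compl
  · exact isClosed_eq continuous_fst continuous_const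

/-- The points `(k, ∞)`. -/
def inf (k : K) : X₀ := ⟨(k, OnePoint.infty), fun n h => absurd h (OnePoint.infty_ne_coe n)⟩

/-- The points `(kk n, n)`. -/
noncomputable def pt (n : ℕ) : X₀ :=
  ⟨(kk n, (n : OnePoint ℕ)), fun m h => by rw [OnePoint.coe_eq_coe] at h; rw [h]⟩

lemma continuous_inf : Continuous inf := by
  unfold inf
  fun_prop

lemma not_selSeq : ¬ SelSeq (X₀ ⊕ Unit) := by
  intro h
  obtain ⟨x, hx, a, φ, hφ, ha⟩ := h (fun n => Sum.inl '' {p : X₀ | p.1.2 = (n : OnePoint ℕ)})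
    (fun n => ⟨isOpenMap_inl _ ((isClopen_nat n).2.preimage
      (continuous_snd.comp continuous_subtype_val)), ⟨_, pt n, rfl, rfl⟩⟩)
  have hcont : Continuous (Sum.elim (fun p : X₀ => p.1.1) (fun _ : Unit => kk 0)) :=
    (continuous_fst.comp continuous_subtype_val).sumElim continuous_const
  have h1 := (hcont.tendsto a).comp ha
  apply kk_not_tendsto φ hφ _ (h1.congr fun n => ?_)
  obtain ⟨p, hp, hpx⟩ := hx (φ n)
  simp only [Function.comp_apply, ← hpx, Sum.elim_inl]
  exact p.2 _ hp

lemma tendsto_diff {f : X₀ → ℝ} (hf : Continuous f) :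
    Tendsto (fun n => f (pt n) - f (inf (kk n))) atTop (𝓝 0) := by
  rw [tendsto_iff_ultrafilter]
  intro g hg
  obtain ⟨k, -, hk⟩ := isCompact_univ.ultrafilter_le_nhds (Ultrafilter.map kk g) (by simp)
  have hk' : Tendsto kk g (𝓝 k) := hk
  have h1 : Tendsto (fun n => inf (kk n)) g (𝓝 (inf k)) := (continuous_inf.tendsto k).comp hk'
  have hinf : Tendsto (fun n : ℕ => (n : OnePoint ℕ)) g (𝓝 OnePoint.infty) := by
    have h2 : Tendsto (fun n : ℕ => (n : OnePoint ℕ)) atTop (𝓝 OnePoint.infty) :=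
      (OnePoint.continuous_iff_from_nat id).1 continuous_id
    exact h2.mono_left hg
  have h2 : Tendsto (fun n => pt n) g (𝓝 (inf k)) := by
    rw [tendsto_subtype_rng]
    exact hk'.prodMk_nhds hinf
  have h3 := ((hf.tendsto _).comp h2).sub ((hf.tendsto _).comp h1)
  simpa using h3

/-- The isomorphism, forward direction. -/
noncomputable def fwd (f : X₀ ⊕ Unit → ℝ) : K ⊕ OnePoint ℕ → ℝ :=
  Sum.elim (fun k => f (Sum.inl (inf k)))
    (fun s => s.elim (f (Sum.inr ()))
      (fun n => f (Sum.inl (pt n)) - f (Sum.inl (inf (kk n))) + f (Sum.inr ())))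

/-- The isomorphism, backward direction. -/
def bwd (g : K ⊕ OnePoint ℕ → ℝ) : X₀ ⊕ Unit → ℝ :=
  Sum.elim (fun p => g (Sum.inl p.1.1) + g (Sum.inr p.1.2) - g (Sum.inr OnePoint.infty))
    (fun _ => g (Sum.inr OnePoint.infty))

lemma fwd_continuous {f : X₀ ⊕ Unit → ℝ} (hf : Continuous f) : Continuous (fwd f) := by
  unfold fwd
  refine Continuous.sumElim ?_ ?_
  · exact hf.comp (continuous_inl.comp continuous_inf)
  · rw [OnePoint.continuous_iff_from_nat]
    have h1 := tendsto_diff (hf.comp continuous_inl)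
    have h2 := h1.add_const (f (Sum.inr ()))
    simpa using h2

lemma bwd_continuous {g : K ⊕ OnePoint ℕ → ℝ} (hg : Continuous g) : Continuous (bwd g) := by
  unfold bwd
  refine Continuous.sumElim ?_ continuous_const
  fun_prop

lemma bwd_fwd (f : X₀ ⊕ Unit → ℝ) : bwd (fwd f) = f := by
  funext w
  rcases w with ⟨⟨k, s⟩, hp⟩ | u
  · rcases s with _ | n
    · show f (Sum.inl (inf k)) + f (Sum.inr ()) - f (Sum.inr ()) = _
      rw [add_sub_cancel_right]
      rfl
    · have h1 : k = kk n := hp n rfl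
      subst h1
      show f (Sum.inl (inf (kk n))) +
        (f (Sum.inl (pt n)) - f (Sum.inl (inf (kk n))) + f (Sum.inr ())) - f (Sum.inr ()) = _
      have h2 : f (Sum.inl (inf (kk n))) +
        (f (Sum.inl (pt n)) - f (Sum.inl (inf (kk n))) + f (Sum.inr ())) - f (Sum.inr ()) =
        f (Sum.inl (pt n)) := by ring
      rw [h2]
      rfl
  · rfl

lemma fwd_bwd (g : K ⊕ OnePoint ℕ → ℝ) : fwd (bwd g) = g := by
  funext w
  rcases w with k | s
  · show g (Sum.inl k) + g (Sum.inr OnePoint.infty) - g (Sum.inr OnePoint.infty) = _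
    ring
  · rcases s with _ | n
    · rfl
    · show (g (Sum.inl (kk n)) + g (Sum.inr (n : OnePoint ℕ)) - g (Sum.inr OnePoint.infty)) -
        (g (Sum.inl (kk n)) + g (Sum.inr OnePoint.infty) - g (Sum.inr OnePoint.infty)) +
        g (Sum.inr OnePoint.infty) = g (Sum.inr (n : OnePoint ℕ))
      ring

end spaceX

section equivalence

lemma eval_cont {X G : Type} [TopologicalSpace X] [TopologicalSpace G] [AddGroup G]
    [IsTopologicalAddGroup G] (w : X) : Continuous fun f : Cp X G => f.1 w :=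
  (continuous_apply w).comp continuous_subtype_val

/-- `C_p(K ⊕ (ℕ ∪ {∞}), ℝ)` and `C_p(X₀ ⊕ point, ℝ)` are topologically isomorphic. -/
lemma gEquivalent : GEquivalent (K ⊕ OnePoint ℕ) (X₀ ⊕ Unit) ℝ := by
  refine ⟨⟨⟨⟨fun g => ⟨bwd g.1, bwd_continuous g.2⟩, fun f => ⟨fwd f.1, fwd_continuous f.2⟩,
    fun g => Subtype.ext (fwd_bwd g.1), fun f => Subtype.ext (bwd_fwd f.1)⟩, ?_⟩, ?_, ?_⟩⟩
  · intro g h
    apply Subtype.ext
    funext w
    rcases w with p | u
    · show (g.1 + h.1) _ + (g.1 + h.1) _ - (g.1 + h.1) _ = (g.1 _ + g.1 _ - g.1 _) +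
        (h.1 _ + h.1 _ - h.1 _)
      simp only [Pi.add_apply]
      ring
    · rfl
  · refine Continuous.subtype_mk (continuous_pi fun w => ?_) _
    rcases w with p | u
    · exact ((eval_cont (X := K ⊕ OnePoint ℕ) (G := ℝ) (Sum.inl p.1.1)).add
        (eval_cont (Sum.inr p.1.2))).sub (eval_cont (Sum.inr OnePoint.infty))
    · exact eval_cont (X := K ⊕ OnePoint ℕ) (G := ℝ) (Sum.inr OnePoint.infty)
  · refine Continuous.subtype_mk (continuous_pi fun w => ?_) _
    rcases w with k | s
    · exact eval_cont (X := X₀ ⊕ Unit) (G := ℝ) (Sum.inl (inf k))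
    · rcases s with _ | n
      · exact eval_cont (X := X₀ ⊕ Unit) (G := ℝ) (Sum.inr ())
      · exact ((eval_cont (X := X₀ ⊕ Unit) (G := ℝ) (Sum.inl (pt n))).sub
          (eval_cont (Sum.inl (inf (kk n))))).add (eval_cont (Sum.inr ()))

/-- `C_p(point, ℝ^ω)` and `C_p(ℕ, ℝ^ω)` are topologically isomorphic. -/
lemma gEquivalent' : GEquivalent Unit ℕ (ℕ → ℝ) := by
  refine ⟨⟨⟨⟨fun f => ⟨fun m n => f.1 () (Nat.pair m n), continuous_of_discreteTopology⟩,
    fun g => ⟨fun _ j => g.1 j.unpair.1 j.unpair.2, continuous_of_discreteTopology⟩,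
    fun f => ?_, fun g => ?_⟩, ?_⟩, ?_, ?_⟩⟩
  · apply Subtype.ext
    funext u j
    show f.1 () (Nat.pair j.unpair.1 j.unpair.2) = f.1 () j
    rw [Nat.pair_unpair]
  · apply Subtype.ext
    funext m n
    show g.1 (Nat.unpair (Nat.pair m n)).1 (Nat.unpair (Nat.pair m n)).2 = g.1 m n
    rw [Nat.unpair_pair]
  · intro f g
    rfl
  · refine Continuous.subtype_mk (continuous_pi fun m => continuous_pi fun n => ?_) _
    exact (continuous_apply (Nat.pair m n)).comp
      ((continuous_apply ()).comp continuous_subtype_val)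
  · refine Continuous.subtype_mk (continuous_pi fun _ => continuous_pi fun j => ?_) _
    exact (continuous_apply j.unpair.2).comp
      ((continuous_apply j.unpair.1).comp continuous_subtype_val)

lemma dense_Cp_discrete {X : Type} [TopologicalSpace X] [DiscreteTopology X] :
    Dense (Cp X (ℕ → ℝ) : Set (X → (ℕ → ℝ))) := by
  have : (Cp X (ℕ → ℝ) : Set (X → (ℕ → ℝ))) = univ :=
    eq_univ_of_forall fun f => (continuous_of_discreteTopology : Continuous f)
  rw [this]
  exact dense_univ

lemma selPseudo_unit : SelPseudo Unit := by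
  intro U hU hd
  obtain ⟨a, ha⟩ := (hU 0).2
  obtain ⟨b, hb⟩ := (hU 1).2
  exact absurd hb (disjoint_left.1 (hd 0 1 (by norm_num)) ha)

lemma not_selPseudo_nat : ¬ SelPseudo ℕ := by
  intro h
  obtain ⟨x, -, hx⟩ := h (fun n => {n}) (fun n => ⟨isOpen_discrete _, singleton_nonempty n⟩)
    (fun i j hij => by simpa using hij)
  exact hx (isClosed_discrete _)

end equivalence

/-- Negative answers. Q1: there are compact Hausdorff spaces `X`, `Y` such that `C_p(X, ℝ)` and
`C_p(Y, ℝ)` are topologically isomorphic (and dense in `ℝ^X`, `ℝ^Y`), `X` is selectively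
sequentially pseudocompact and `Y` is not. Q2: there are a Hausdorff topological group `G` and
`G`-equivalent Tychonoff spaces `X`, `Y` with dense `C_p(X, G)`, `C_p(Y, G)` such that `X` is
selectively pseudocompact and `Y` is not. -/
theorem result :
    (∃ (X Y : Type) (_ : TopologicalSpace X) (_ : TopologicalSpace Y),
      CompactSpace X ∧ T2Space X ∧ CompactSpace Y ∧ T2Space Y ∧ GEquivalent X Y ℝ ∧
      Dense (Cp X ℝ : Set (X → ℝ)) ∧ Dense (Cp Y ℝ : Set (Y → ℝ)) ∧ SelSeq X ∧ ¬ SelSeq Y) ∧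
    (∃ (G : Type) (_ : AddGroup G) (_ : TopologicalSpace G) (_ : IsTopologicalAddGroup G)
      (X Y : Type) (_ : TopologicalSpace X) (_ : TopologicalSpace Y),
      T2Space G ∧ T35Space X ∧ T35Space Y ∧ GEquivalent X Y G ∧
      Dense (Cp X G : Set (X → G)) ∧ Dense (Cp Y G : Set (Y → G)) ∧
      SelPseudo X ∧ ¬ SelPseudo Y) := by
  refine ⟨⟨K ⊕ OnePoint ℕ, X₀ ⊕ Unit, inferInstance, inferInstance, inferInstance, inferInstance,
    inferInstance, inferInstance, gEquivalent, dense_Cp, dense_Cp,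
    selSeq_K.sum selSeq_onePoint, not_selSeq⟩, ?_⟩
  exact ⟨ℕ → ℝ, inferInstance, inferInstance, inferInstance, Unit, ℕ, inferInstance,
    inferInstance, inferInstance, inferInstance, inferInstance, gEquivalent', dense_Cp_discrete,
    dense_Cp_discrete, selPseudo_unit, not_selPseudo_nat⟩

end Pool.Agent.Results.MP_c4a8f9_gt.NotInvariant
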